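import Pool.Agent.H77.WISProof

set_option autoImplicit false

namespace Pool.Agent.Results.MP_d80673_al.NotVariety

open Pool.Agent.H77.WIS

/-- The class `K` of representable weakening implication semigroups is not closed under
homomorphic images, and it is not contained in any discriminator variety. -/
theorem result :
    (∃ A B : Alg, K A ∧
      (∃ h : A.carrier → B.carrier, Function.Surjective h ∧ IsHom A B h) ∧ ¬ K B) ∧
    ¬ ∃ (C : Alg → Prop) (d : Term), (∀ A, C A → IsDiscr d A) ∧ ∀ A, K A → InHSP C A :=
  ⟨not_variety, not_discr⟩

end Pool.Agent.Results.MP_d80673_al.NotVariety
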